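import Mathlib
import Pool.Agent.H.MP_918176_nt.A

set_option autoImplicit false

namespace Pool.Agent.Results.MP_918176_nt.NoEq

open PowerSeries

/-- the coefficient of `x ^ n` in `(1 - x) ^ (-m)` times the product of the `(1 - x ^ 2 ^ i) ^ (-m)` -/
noncomputable def c (m n : ℕ) : ℤ :=
  coeff n ((PowerSeries.mk fun _ : ℕ => (1 : ℤ)) ^ m * ∏ i ∈ Finset.range (n + 1),
    (PowerSeries.mk fun j : ℕ => if 2 ^ i ∣ j then (1 : ℤ) else 0) ^ m)

theorem result : ∃ k : ℕ, ∀ n : ℕ, 0 < n →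
    ((padicValNat 2 n + 6 : ℕ) : ℕ∞) <
      emultiplicity (2 : ℤ) (c (4 * k + 3) (4 * n) - c (4 * k + 3) n) := by
  refine ⟨3, fun n _ => ?_⟩
  have e : (PowerSeries.mk fun _ : ℕ => (1 : ℤ)) = Pool.Agent.Lib.helper11.Mahler.geo ℤ 1 := by
    ext j
    simp [Pool.Agent.Lib.helper11.Mahler.geo]
  obtain ⟨a, ha⟩ : 2 ^ padicValNat 2 n ∣ n := pow_padicValNat_dvd
  have h := Pool.Agent.H.MP_918176_nt.main (padicValNat 2 n) a
  rw [← ha] at h
  refine lt_of_lt_of_le ?_ (le_emultiplicity_of_pow_dvd (k := padicValNat 2 n + 7) ?_)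
  · exact_mod_cast Nat.lt_succ_self _
  · rw [c, c, e]
    exact h

end Pool.Agent.Results.MP_918176_nt.NoEq
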